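import Pool.Agent.Helper73.MI.Stmts
import Mathlib.Analysis.Calculus.Rademacher

/-!
# Divergence theorem for functions vanishing on the boundary (project MP_a2630c_MI, module DIV)
-/

open MeasureTheory Set Metric Real Filter Topology
open scoped RealInnerProductSpace ENNReal NNReal

universe w

namespace Pool.Agent.Helper37.MI

section

variable {V : Type*} [NormedAddCommGroup V] [InnerProductSpace ℝ V]

/-- Bound by the distance to a point outside `S`. -/
theorem bound_of_not_mem {S : Set V} {g : V → ℝ} {g' : V → V →L[ℝ] ℝ} {C : ℝ}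
    (hS : IsOpen S) (hgc : Continuous g) (hg0 : ∀ y, y ∉ S → g y = 0)
    (hd : ∀ y ∈ S, HasFDerivAt g (g' y) y) (hC : ∀ y ∈ S, ‖g' y‖ ≤ C) (hC0 : 0 ≤ C) {x z : V}
    (hz : z ∉ S) : |g x| ≤ C * ‖z - x‖ := by
  by_cases hx : x ∈ S
  swap
  · rw [hg0 x hx, abs_zero]
    positivity
  · let p : ℝ → V := fun t => x + t • (z - x)
    have hp : Continuous p := by fun_prop
    let A : Set ℝ := {t | p t ∉ S} ∩ Icc 0 1
    have hA : IsClosed A := (hS.isClosed_compl.preimage hp).inter isClosed_Icc
    have h1A : (1 : ℝ) ∈ A := by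
      refine ⟨?_, by norm_num, le_refl _⟩
      simpa [p] using hz
    have hAb : BddBelow A := ⟨0, fun t ht => ht.2.1⟩
    obtain ⟨ht0A, ht01⟩ := hA.csInf_mem ⟨1, h1A⟩ hAb
    set t0 := sInf A with ht0
    have hin : ∀ t ∈ Ico 0 t0, p t ∈ S := by
      intro t ht
      by_contra hcon
      have : t ∈ A := ⟨hcon, ht.1, (ht.2.trans_le ht01.2).le⟩
      exact absurd (csInf_le hAb this) (not_le.mpr ht.2)
    have key := norm_image_sub_le_of_norm_deriv_right_le_segment (f := fun t => g (p t))
      (f' := fun t => g' (p t) (z - x)) (C := C * ‖z - x‖) (a := 0) (b := t0)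
      (hgc.comp hp).continuousOn (by
        intro t ht
        have h1 : HasDerivAt p (z - x) t := by
          have := ((hasDerivAt_id t).smul_const (z - x)).const_add x
          simpa [p] using this
        exact ((hd _ (hin t ht)).comp_hasDerivAt t h1).hasDerivWithinAt) (by
        intro t ht
        exact ((g' (p t)).le_opNorm _).trans
          (mul_le_mul_of_nonneg_right (hC _ (hin t ht)) (norm_nonneg _))) t0
      ⟨ht01.1, le_refl _⟩
    have e0 : p 0 = x := by simp [p]
    have e1 : g (p t0) = 0 := hg0 _ ht0A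
    simp only [e0, e1, zero_sub, norm_neg, Real.norm_eq_abs, sub_zero] at key
    have : C * ‖z - x‖ * t0 ≤ C * ‖z - x‖ :=
      mul_le_of_le_one_right (by positivity) ht01.2
    exact key.trans this

/-- A function with bounded derivative on an open set, zero outside, is Lipschitz. -/
theorem lipschitz_of_zero {S : Set V} {g : V → ℝ} {g' : V → V →L[ℝ] ℝ} {C : ℝ}
    (hS : IsOpen S) (hgc : Continuous g) (hg0 : ∀ y, y ∉ S → g y = 0)
    (hd : ∀ y ∈ S, HasFDerivAt g (g' y) y) (hC : ∀ y ∈ S, ‖g' y‖ ≤ C) (hC0 : 0 ≤ C) :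
    LipschitzWith (NNReal.mk C hC0) g := by
  refine LipschitzWith.of_dist_le_mul fun x y => ?_
  rw [Real.dist_eq, dist_eq_norm]
  show |g x - g y| ≤ C * ‖x - y‖
  by_cases hseg : segment ℝ x y ⊆ S
  · have := (convex_segment x y).norm_image_sub_le_of_norm_hasFDerivWithin_le (f := g)
      (f' := g') (C := C) (fun z hz => (hd z (hseg hz)).hasFDerivWithinAt)
      (fun z hz => hC z (hseg hz)) (right_mem_segment ℝ x y) (left_mem_segment ℝ x y)
    simpa [Real.norm_eq_abs] using this
  · obtain ⟨z, hz, hzS⟩ := Set.not_subset.mp hseg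
    have h1 := bound_of_not_mem hS hgc hg0 hd hC hC0 (x := x) hzS
    have h2 := bound_of_not_mem hS hgc hg0 hd hC hC0 (x := y) hzS
    have h3 := dist_add_dist_of_mem_segment hz
    rw [dist_eq_norm, dist_eq_norm, dist_eq_norm] at h3
    have h4 : ‖z - x‖ = ‖x - z‖ := norm_sub_rev _ _
    calc |g x - g y| ≤ |g x| + |g y| := abs_sub _ _
      _ ≤ C * ‖z - x‖ + C * ‖z - y‖ := add_le_add h1 h2
      _ = C * (‖x - z‖ + ‖z - y‖) := by rw [h4]; ring
      _ = C * ‖x - y‖ := by rw [h3]

end

/-- (DIV) -/
theorem div : Pool.Agent.Helper73.MI.S_div.{w} := by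
  intro V _ _ _ _ _ S g g' C hS hb hfr hgc hg0 hd hC a
  by_cases hne : S.Nonempty
  swap
  · rw [Set.not_nonempty_iff_eq_empty] at hne
    subst hne
    simp
  obtain ⟨s, hs⟩ := hne
  have hC0 : 0 ≤ C := (norm_nonneg _).trans (hC s hs)
  have hlip := lipschitz_of_zero hS hgc hg0 hd hC hC0
  have hcs : HasCompactSupport g := by
    refine HasCompactSupport.of_support_subset_isCompact hb.isCompact_closure ?_
    intro y hy
    by_contra hcon
    exact hy (hg0 y fun h => hcon (subset_closure h))
  -- the total integral of the line derivative vanishes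
  have h0 : ∫ x, lineDeriv ℝ g x a = 0 := by
    have h := LipschitzWith.integral_lineDeriv_mul_eq (μ := (volume : Measure V))
      (f := fun _ : V => (1 : ℝ)) (C := 0) (LipschitzWith.const 1) hlip hcs (-a)
    simp only [neg_neg, mul_one] at h
    rw [← h]
    have : ∀ x : V, lineDeriv ℝ (fun _ : V => (1 : ℝ)) x (-a) = 0 := by
      intro x
      simp [lineDeriv]
    simp [this]
  -- on `S` the line derivative is `g' y a`
  have hon : ∀ y ∈ S, lineDeriv ℝ g y a = g' y a := fun y hy => ((hd y hy).hasLineDerivAt a).lineDeriv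
  -- outside the closure it vanishes
  have hoff : ∀ y, y ∉ closure S → lineDeriv ℝ g y a = 0 := by
    intro y hy
    have : g =ᶠ[𝓝 y] fun _ => (0 : ℝ) := by
      filter_upwards [isClosed_closure.isOpen_compl.mem_nhds hy] with z hz
      exact hg0 z fun h => hz (subset_closure h)
    have h2 : HasFDerivAt g (0 : V →L[ℝ] ℝ) y := (hasFDerivAt_const (0 : ℝ) y).congr_of_eventuallyEq this
    simpa using (h2.hasLineDerivAt a).lineDeriv
  have hae : ∀ᵐ y ∂(volume : Measure V), y ∈ Sᶜ → lineDeriv ℝ g y a = 0 := by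
    have : ∀ᵐ y ∂(volume : Measure V), y ∉ frontier S := by
      rw [ae_iff]
      simpa using hfr
    filter_upwards [this] with y hy hyS
    refine hoff y fun hcl => hy ?_
    rw [hS.frontier_eq]
    exact ⟨hcl, hyS⟩
  have hmeas : AEStronglyMeasurable (fun x => lineDeriv ℝ g x a) (volume : Measure V) :=
    aestronglyMeasurable_lineDeriv hgc volume
  have hint : IntegrableOn (fun y => g' y a) S := by
    have hfin : volume S < ⊤ := hb.measure_lt_top
    refine (Measure.integrableOn_of_bounded (M := C * ‖a‖) hfin.ne hmeas ?_).congr_fun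
      (fun y hy => hon y hy) hS.measurableSet
    refine (ae_restrict_iff' hS.measurableSet).mpr (.of_forall fun y hy => ?_)
    rw [hon y hy]
    exact ((g' y).le_opNorm a).trans (mul_le_mul_of_nonneg_right (hC y hy) (norm_nonneg _))
  refine ⟨hint, ?_⟩
  rw [← setIntegral_congr_fun hS.measurableSet (fun y hy => hon y hy), ← h0]
  have hall : ∫ x in (Set.univ : Set V), lineDeriv ℝ g x a = ∫ x in S, lineDeriv ℝ g x a := by
    refine setIntegral_eq_of_subset_of_ae_sdiff_eq_zero MeasurableSet.univ.nullMeasurableSet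
      (Set.subset_univ _) ?_
    filter_upwards [hae] with y hy hy2
    exact hy hy2.2
  rw [← hall, setIntegral_univ]

end Pool.Agent.Helper37.MI
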